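import Pool.Agent.H58RH.Base

set_option autoImplicit false

/-!
# Deformations of the Riemann hierarchy over every field of characteristic zero

`DP K = K[[u]][u_1, u_2, …]` (the variable `X k` is `u_{k+1}`), `EDP K = DP[[ε]]`, the total
derivative `dx`, the bracket `brk`, `IsDeformation`, `MiuraEquivalent`, `bser` (the series `b_k`) are
those of `Pool/Agent/H58RH/Base.lean`, word for word the definitions of the library files for `ℂ`.
`fam β` is the family `u_{t_d} = u_x v^d / d!`, `v = u + ∑_{n ≥ 1} ε^n β_n(u) u_x^n`.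
-/

open MvPolynomial

namespace Pool.Agent.Results.MP_4b14b2_mp.AllFields

open Pool.Agent.H58RH

universe u

/-- `b_{(1,1)}`, the coefficient of `ε u_1²` in the first flow `Q_1`. -/
noncomputable def b11 {K : Type u} [Field K] (Q : ℕ → EDP K) : PowerSeries K :=
  coeff (Finsupp.single 0 2) (PowerSeries.coeff 1 (Q 1))

/-- **Disproof of Q1 over every field `K` of characteristic zero.**
(1) For Miura equivalent deformations the whole coefficient of `ε` in every flow is the same; in
particular `b_{(1,1)}` is an invariant.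
(2) For EVERY sequence `β_1, β_2, … ∈ K[[u]]` the equations `u_{t_d} = u_x v^d / d!` with
`v = u + ∑_{n ≥ 1} ε^n β_n(u) u_x^n` are a deformation of the Riemann hierarchy with `b_k = 0` for
all `k ≥ 2` and `b_{(1,1)} = β_1`.
(3) Those with different `β_1` are not Miura equivalent.
(4) So deformations with the same series `b_k`, `k ≥ 2`, need not be Miura equivalent. -/
theorem result (K : Type u) [Field K] [CharZero K] :
    (∀ Q Q' : ℕ → EDP K, IsDeformation Q → IsDeformation Q' → MiuraEquivalent Q Q' →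
      (∀ d, PowerSeries.coeff 1 (Q d) = PowerSeries.coeff 1 (Q' d)) ∧ b11 Q = b11 Q') ∧
    (∀ β : ℕ → PowerSeries K, IsDeformation (fam β) ∧ (∀ k, 2 ≤ k → bser (fam β) k = 0) ∧
      b11 (fam β) = β 1) ∧
    (∀ β β' : ℕ → PowerSeries K, MiuraEquivalent (fam β) (fam β') → β 1 = β' 1) ∧
    ¬ ∀ Q Q' : ℕ → EDP K, IsDeformation Q → IsDeformation Q' →
      (∀ k, 2 ≤ k → bser Q k = bser Q' k) → MiuraEquivalent Q Q' := by
  have hinv : ∀ Q Q' : ℕ → EDP K, IsDeformation Q → IsDeformation Q' → MiuraEquivalent Q Q' →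
      (∀ d, PowerSeries.coeff 1 (Q d) = PowerSeries.coeff 1 (Q' d)) ∧ b11 Q = b11 Q' := by
    intro Q Q' h1 h2 h
    have h3 := inv_all Q Q' h1 h2 h
    refine ⟨h3, ?_⟩
    unfold b11
    rw [h3 1]
  have hb : ∀ β : ℕ → PowerSeries K, b11 (fam β) = β 1 := by
    intro β
    unfold b11
    rw [coeff_fam β 1 one_ne_zero, coeff_monomial, if_pos rfl]
  have hne : ∀ β β' : ℕ → PowerSeries K, MiuraEquivalent (fam β) (fam β') → β 1 = β' 1 := by
    intro β β' h
    rw [← hb β, ← hb β']
    exact (hinv _ _ (fam_def β) (fam_def β') h).2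
  refine ⟨hinv, fun β => ⟨fam_def β, fam_b β, hb β⟩, hne, fun h => ?_⟩
  have h1 := hne (fun _ => 1) (fun _ => 0) (h _ _ (fam_def _) (fam_def _)
    fun k hk => by rw [fam_b _ k hk, fam_b _ k hk])
  exact one_ne_zero h1

end Pool.Agent.Results.MP_4b14b2_mp.AllFields
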